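import Pool.Agent.Y485.OR.Plan

set_option autoImplicit false

/-!
# Virtually abelian groups have Cayley graphs of nonnegative curvature
-/

namespace Pool.Agent.Y485.OR

open Pool.Agent.H141R3.Ollivier

/-- The data of the construction: a finite set `B` of nontrivial elements of the normal subgroup
`A`, stable under inversion and conjugation, and two elements in each nontrivial coset of `A`. -/
structure Dat (Γ : Type) [Group Γ] where
  A : Subgroup Γ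
  norm : A.Normal
  B : Finset Γ
  B_mem : ∀ b ∈ B, b ∈ A
  B_one : (1 : Γ) ∉ B
  B_inv : ∀ b ∈ B, b⁻¹ ∈ B
  B_conj : ∀ g, ∀ b ∈ B, g * b * g⁻¹ ∈ B
  T : Finset Γ
  T_mem : ∀ t ∈ T, t ∉ A
  T_inv : ∀ t ∈ T, t⁻¹ ∈ T
  tt : Γ ⧸ A → Fin 2 → Γ
  tt_mk : ∀ q i, (QuotientGroup.mk (tt q i) : Γ ⧸ A) = q
  tt_inj : ∀ q, Function.Injective (tt q)
  T_iff : ∀ t, t ∈ T ↔ t ∉ A ∧ ∃ i, t = tt (QuotientGroup.mk t) i
  three : ∀ t₁ ∈ T, ∀ t₂ ∈ T, ∀ t₃ ∈ T, t₁ * t₂ * t₃ ∈ A → t₁ * t₂ * t₃ ∈ B ∨ t₁ * t₂ * t₃ = 1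
  two : ∀ t₁ ∈ T, ∀ t₂ ∈ T, t₁ * t₂ ∈ A → t₁ * t₂ ∈ B ∨ t₁ * t₂ = 1
  four : ∀ t₁ ∈ T, ∀ t₂ ∈ T, t₁ * t₂ ∈ A →
    t₁ * t₂ * (t₁ * t₂) ∈ B ∨ t₁ * t₂ * (t₁ * t₂) = 1

variable {Γ : Type} [Group Γ]

namespace Dat

attribute [local instance] Dat.norm

open Classical in
/-- The generating set. -/
noncomputable def S (D : Dat Γ) : Finset Γ := D.B ∪ D.T

theorem mem_S (D : Dat Γ) {g : Γ} : g ∈ D.S ↔ g ∈ D.B ∨ g ∈ D.T := by
  classical
  rw [S, Finset.mem_union]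

theorem S_inv (D : Dat Γ) : ∀ s ∈ D.S, s⁻¹ ∈ D.S := by
  intro s hs
  rw [mem_S] at hs ⊢
  exact hs.imp (D.B_inv s) (D.T_inv s)

theorem S_one (D : Dat Γ) : (1 : Γ) ∉ D.S := by
  rw [mem_S]
  rintro (h | h)
  · exact D.B_one h
  · exact D.T_mem _ h D.A.one_mem

theorem mem_A_iff (D : Dat Γ) (g : Γ) : g ∈ D.A ↔ (QuotientGroup.mk g : Γ ⧸ D.A) = 1 :=
  (QuotientGroup.eq_one_iff g).symm

/-- Translations. -/
theorem bij_B (D : Dat Γ) {s : Γ} (hs : s ∈ D.B) : ∃ σ : Γ → Γ, Set.BijOn σ D.S D.S ∧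
    ∀ a ∈ D.S, a⁻¹ * s * σ a ∈ D.S ∨ a⁻¹ * s * σ a = 1 := by
  refine ⟨id, Set.bijOn_id _, fun a _ => Or.inl ?_⟩
  rw [mem_S]
  left
  have := D.B_conj a⁻¹ s hs
  rwa [inv_inv] at this

open Classical in
/-- The index of an element of `T` in its coset. -/
noncomputable def idx (D : Dat Γ) (t : Γ) : Fin 2 :=
  if h : ∃ i, t = D.tt (QuotientGroup.mk t) i then h.choose else 0

theorem idx_spec (D : Dat Γ) {t : Γ} (ht : t ∈ D.T) :
    D.tt (QuotientGroup.mk t) (D.idx t) = t := by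
  have h := ((D.T_iff t).1 ht).2
  rw [idx, dif_pos h]
  exact h.choose_spec.symm

open Classical in
/-- The first version of the bijection. -/
noncomputable def sg (D : Dat Γ) (s a : Γ) : Γ :=
  if a ∈ D.A then s⁻¹ * a * s
  else if (QuotientGroup.mk a : Γ ⧸ D.A) = QuotientGroup.mk s then a⁻¹
  else D.tt ((QuotientGroup.mk s)⁻¹ * QuotientGroup.mk a) (D.idx a)

theorem sg_A (D : Dat Γ) {s a : Γ} (ha : a ∈ D.A) : D.sg s a = s⁻¹ * a * s := by
  rw [sg, if_pos ha]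

theorem sg_s (D : Dat Γ) {s a : Γ} (ha : a ∉ D.A)
    (h : (QuotientGroup.mk a : Γ ⧸ D.A) = QuotientGroup.mk s) : D.sg s a = a⁻¹ := by
  rw [sg, if_neg ha, if_pos h]

theorem sg_o (D : Dat Γ) {s a : Γ} (ha : a ∉ D.A)
    (h : (QuotientGroup.mk a : Γ ⧸ D.A) ≠ QuotientGroup.mk s) :
    D.sg s a = D.tt ((QuotientGroup.mk s)⁻¹ * QuotientGroup.mk a) (D.idx a) := by
  rw [sg, if_neg ha, if_neg h]

theorem mk_A (D : Dat Γ) {s a : Γ} (ha : a ∈ D.A) :
    (QuotientGroup.mk (D.sg s a) : Γ ⧸ D.A) = 1 := by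
  rw [sg_A D ha, ← mem_A_iff]
  have := D.norm.conj_mem a ha s⁻¹
  rwa [inv_inv] at this

theorem mk_s (D : Dat Γ) {s a : Γ} (ha : a ∉ D.A)
    (h : (QuotientGroup.mk a : Γ ⧸ D.A) = QuotientGroup.mk s) :
    (QuotientGroup.mk (D.sg s a) : Γ ⧸ D.A) = (QuotientGroup.mk s)⁻¹ := by
  rw [sg_s D ha h, QuotientGroup.mk_inv, h]

theorem mk_o (D : Dat Γ) {s a : Γ} (ha : a ∉ D.A)
    (h : (QuotientGroup.mk a : Γ ⧸ D.A) ≠ QuotientGroup.mk s) :
    (QuotientGroup.mk (D.sg s a) : Γ ⧸ D.A) = (QuotientGroup.mk s)⁻¹ * QuotientGroup.mk a := by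
  rw [sg_o D ha h, D.tt_mk]

theorem sg_maps (D : Dat Γ) {s : Γ} (_hs : s ∈ D.T) : Set.MapsTo (D.sg s) D.S D.S := by
  intro a ha
  rw [Finset.mem_coe, mem_S] at ha ⊢
  rcases ha with ha | ha
  · left
    rw [sg_A D (D.B_mem a ha)]
    have := D.B_conj s⁻¹ a ha
    rwa [inv_inv] at this
  · right
    have hA := D.T_mem a ha
    by_cases h : (QuotientGroup.mk a : Γ ⧸ D.A) = QuotientGroup.mk s
    · rw [sg_s D hA h]
      exact D.T_inv a ha
    · rw [D.T_iff]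
      constructor
      · rw [mem_A_iff, mk_o D hA h, inv_mul_eq_one]
        exact fun h' => h h'.symm
      · refine ⟨D.idx a, ?_⟩
        rw [mk_o D hA h, sg_o D hA h]

theorem sg_inj (D : Dat Γ) {s : Γ} (hs : s ∈ D.T) : Set.InjOn (D.sg s) D.S := by
  have hsA : (QuotientGroup.mk s : Γ ⧸ D.A) ≠ 1 := by
    rw [Ne, ← mem_A_iff]
    exact D.T_mem s hs
  have key : ∀ a ∈ D.S, a ∈ D.A ∨ (a ∉ D.A ∧ a ∈ D.T ∧
      (QuotientGroup.mk a : Γ ⧸ D.A) = QuotientGroup.mk s) ∨ (a ∉ D.A ∧ a ∈ D.T ∧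
      (QuotientGroup.mk a : Γ ⧸ D.A) ≠ QuotientGroup.mk s) := by
    intro a ha
    rw [mem_S] at ha
    rcases ha with ha | ha
    · exact Or.inl (D.B_mem a ha)
    · have := D.T_mem a ha
      by_cases h : (QuotientGroup.mk a : Γ ⧸ D.A) = QuotientGroup.mk s
      · exact Or.inr (Or.inl ⟨this, ha, h⟩)
      · exact Or.inr (Or.inr ⟨this, ha, h⟩)
  have hone : ∀ a, a ∉ D.A → (QuotientGroup.mk a : Γ ⧸ D.A) ≠ 1 := by
    intro a ha
    rwa [Ne, ← mem_A_iff]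
  intro a ha b hb hab
  have hmk := congrArg (QuotientGroup.mk : Γ → Γ ⧸ D.A) hab
  rcases key a ha with h1 | ⟨h1, h1', h1''⟩ | ⟨h1, h1', h1''⟩ <;>
    rcases key b hb with h2 | ⟨h2, h2', h2''⟩ | ⟨h2, h2', h2''⟩
  · rw [sg_A D h1, sg_A D h2] at hab
    exact mul_left_cancel (mul_right_cancel hab)
  · rw [mk_A D h1, mk_s D h2 h2''] at hmk
    exact absurd (inv_eq_one.1 hmk.symm) hsA
  · rw [mk_A D h1, mk_o D h2 h2''] at hmk
    exact absurd (inv_mul_eq_one.1 hmk.symm).symm h2''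
  · rw [mk_s D h1 h1'', mk_A D h2] at hmk
    exact absurd (inv_eq_one.1 hmk) hsA
  · rw [sg_s D h1 h1'', sg_s D h2 h2''] at hab
    exact inv_injective hab
  · rw [mk_s D h1 h1'', mk_o D h2 h2''] at hmk
    exact absurd (left_eq_mul.1 hmk) (hone b h2)
  · rw [mk_o D h1 h1'', mk_A D h2] at hmk
    exact absurd (inv_mul_eq_one.1 hmk).symm h1''
  · rw [mk_o D h1 h1'', mk_s D h2 h2''] at hmk
    exact absurd (mul_eq_left.1 hmk) (hone a h1)
  · rw [mk_o D h1 h1'', mk_o D h2 h2''] at hmk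
    have h3 : (QuotientGroup.mk a : Γ ⧸ D.A) = QuotientGroup.mk b := mul_left_cancel hmk
    rw [sg_o D h1 h1'', sg_o D h2 h2'', h3] at hab
    have h4 := D.tt_inj _ hab
    rw [← D.idx_spec h1', ← D.idx_spec h2', h3, h4]

/-- The other element of `T` in the coset of `s`. -/
theorem exists_other (D : Dat Γ) {s : Γ} (hs : s ∈ D.T) : ∃ u ∈ D.T, u ≠ s ∧
    (QuotientGroup.mk u : Γ ⧸ D.A) = QuotientGroup.mk s ∧
    ∀ a ∈ D.T, (QuotientGroup.mk a : Γ ⧸ D.A) = QuotientGroup.mk s → a = s ∨ a = u := by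
  obtain ⟨hsA, i, hi⟩ := (D.T_iff s).1 hs
  have hj : ∃ j : Fin 2, j ≠ i ∧ ∀ k : Fin 2, k = i ∨ k = j := by
    fin_cases i
    · exact ⟨1, by decide, by decide⟩
    · exact ⟨0, by decide, by decide⟩
  obtain ⟨j, hj, hjk⟩ := hj
  have hmk := D.tt_mk (QuotientGroup.mk s) j
  refine ⟨D.tt (QuotientGroup.mk s) j, ?_, ?_, hmk, ?_⟩
  · rw [D.T_iff, mem_A_iff, hmk, ← mem_A_iff]
    exact ⟨hsA, j, rfl⟩
  · intro h
    apply hj
    apply D.tt_inj (QuotientGroup.mk s)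
    rw [h, ← hi]
  · intro a ha h
    obtain ⟨-, k, hk⟩ := (D.T_iff a).1 ha
    rw [h] at hk
    rcases hjk k with rfl | rfl
    · left
      rw [hk, ← hi]
    · right
      exact hk

open Classical in
/-- The other edges. -/
theorem bij_T (D : Dat Γ) {s : Γ} (hs : s ∈ D.T) : ∃ σ : Γ → Γ, Set.BijOn σ D.S D.S ∧
    ∀ a ∈ D.S, a⁻¹ * s * σ a ∈ D.S ∨ a⁻¹ * s * σ a = 1 := by
  obtain ⟨u, hu, hus, humk, hall⟩ := D.exists_other hs
  have hsA := D.T_mem s hs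
  have huA := D.T_mem u hu
  set β : Γ := s * u⁻¹ with hβ
  have hβA : β ∈ D.A := by
    rw [mem_A_iff, hβ, QuotientGroup.mk_mul, QuotientGroup.mk_inv, humk, mul_inv_cancel]
  have hβ1 : β ≠ 1 := by
    rw [hβ, Ne, mul_inv_eq_one]
    exact hus.symm
  have hβB : β ∈ D.B := by
    rcases D.two s hs u⁻¹ (D.T_inv u hu) hβA with h | h
    · exact h
    · exact absurd h hβ1
  have hβu : β ≠ u := by
    intro h
    exact huA (h ▸ hβA)
  have hβ2 : β * β ∈ D.B ∨ β * β = 1 := D.four s hs u⁻¹ (D.T_inv u hu) hβA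
  have hbase : Set.BijOn (D.sg s) D.S D.S :=
    (Set.Finite.injOn_iff_bijOn_of_mapsTo (Finset.finite_toSet _) (D.sg_maps hs)).1 (D.sg_inj hs)
  have hβS : β ∈ D.S := D.mem_S.2 (Or.inl hβB)
  have huS : u ∈ D.S := D.mem_S.2 (Or.inr hu)
  have hswap : Set.BijOn (Equiv.swap β u) D.S D.S := by
    refine (Set.Finite.injOn_iff_bijOn_of_mapsTo (Finset.finite_toSet _) ?_).1
      (Equiv.injective _).injOn
    intro a ha
    by_cases h1 : a = β
    · rw [h1, Equiv.swap_apply_left]; exact huS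
    by_cases h2 : a = u
    · rw [h2, Equiv.swap_apply_right]; exact hβS
    rw [Equiv.swap_apply_of_ne_of_ne h1 h2]; exact ha
  refine ⟨D.sg s ∘ Equiv.swap β u, hbase.comp hswap, ?_⟩
  intro a ha
  change a⁻¹ * s * D.sg s (Equiv.swap β u a) ∈ D.S ∨ a⁻¹ * s * D.sg s (Equiv.swap β u a) = 1
  by_cases h1 : a = β
  · right
    rw [h1, Equiv.swap_apply_left, sg_s D huA humk, hβ]
    group
  by_cases h2 : a = u
  · rw [h2, Equiv.swap_apply_right, sg_A D hβA]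
    have e : u⁻¹ * s * (s⁻¹ * β * s) = s⁻¹ * (β * β) * s⁻¹⁻¹ := by
      rw [hβ]; group
    rw [e]
    rcases hβ2 with h | h
    · left
      exact D.mem_S.2 (Or.inl (D.B_conj s⁻¹ _ h))
    · right
      rw [h]; group
  rw [Equiv.swap_apply_of_ne_of_ne h1 h2]
  rcases D.mem_S.1 ha with hB | hT
  · left
    have hA := D.B_mem a hB
    rw [sg_A D hA]
    have e : a⁻¹ * s * (s⁻¹ * a * s) = s := by group
    rw [e]
    exact D.mem_S.2 (Or.inr hs)
  · have hA := D.T_mem a hT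
    by_cases h3 : (QuotientGroup.mk a : Γ ⧸ D.A) = QuotientGroup.mk s
    · rcases hall a hT h3 with rfl | rfl
      · left
        rw [sg_s D hA rfl]
        have e : a⁻¹ * a * a⁻¹ = a⁻¹ := by group
        rw [e]
        exact D.mem_S.2 (Or.inr (D.T_inv a hs))
      · exact absurd rfl h2
    · have hm : D.sg s a ∈ D.T := by
        have h4 := D.sg_maps hs ha
        rcases D.mem_S.1 h4 with h5 | h5
        · exfalso
          have h6 := (D.mem_A_iff _).1 (D.B_mem _ h5)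
          rw [mk_o D hA h3, inv_mul_eq_one] at h6
          exact h3 h6.symm
        · exact h5
      have h5 : a⁻¹ * s * D.sg s a ∈ D.A := by
        rw [mem_A_iff, QuotientGroup.mk_mul, QuotientGroup.mk_mul, mk_o D hA h3,
          QuotientGroup.mk_inv]
        group
      rcases D.three a⁻¹ (D.T_inv a hT) s hs _ hm h5 with h6 | h6
      · exact Or.inl (D.mem_S.2 (Or.inl h6))
      · exact Or.inr h6

/-- The Cayley graph of the construction has nonnegative curvature. -/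
theorem nonneg (D : Dat Γ) (x y : Γ) (h : (cayley D.S).Adj x y) :
    0 ≤ curvature (cayley D.S) x y := by
  refine nonneg_of_bij D.S_inv D.S_one (fun s hs => ?_) x y h
  rcases D.mem_S.1 hs with h1 | h1
  · exact D.bij_B h1
  · exact D.bij_T h1

end Dat

end Pool.Agent.Y485.OR
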