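import Pool.Agent.TH595.QIG
import Pool.Agent.H141R3.Heis

set_option autoImplicit false

/-!
# Groups with a Cayley graph of nonnegative curvature are virtually abelian
-/

namespace Pool.Agent.Y485.OR

open Pool.Agent.H141R3.Growth
open Pool.Agent.H141R3.Ollivier
open Pool.Agent.TH595
open scoped ENNReal commutatorElement

/-- The group has an abelian subgroup of finite index. -/
def VirtAb (Γ : Type) [Group Γ] : Prop :=
  ∃ A : Subgroup Γ, A.FiniteIndex ∧ ∀ a ∈ A, ∀ b ∈ A, a * b = b * a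

variable {Γ : Type} [Group Γ] {S : Finset Γ}

theorem acts_cayley (hsymm : ∀ s ∈ S, s⁻¹ ∈ S) (h1 : (1 : Γ) ∉ S) : ActsOn Γ (cayley S) := by
  intro g x y
  rw [cayley_adj hsymm h1, cayley_adj hsymm h1]
  simp only [smul_eq_mul]
  have : (g * x)⁻¹ * (g * y) = x⁻¹ * y := by group
  rw [this]

/-- A homomorphism with finite kernel on a subgroup of finite index gives an abelian subgroup of
finite index. -/
theorem virtAb_of_hom [Group.FG Γ] (H : Subgroup Γ) [H.FiniteIndex] {k : ℕ}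
    (χ : Γ → Fin k → ℝ) (hχ : ∀ g ∈ H, ∀ h ∈ H, χ (g * h) = χ g + χ h)
    (hfin : {g | g ∈ H ∧ χ g = 0}.Finite) : VirtAb Γ := by
  classical
  have hfg : Group.FG H := inferInstance
  have e1 : χ 1 = 0 := by
    have := hχ 1 H.one_mem 1 H.one_mem
    rw [mul_one] at this
    exact left_eq_add.1 this
  have einv : ∀ g ∈ H, χ g⁻¹ = - χ g := by
    intro g hg
    have := hχ g hg g⁻¹ (H.inv_mem hg)
    rw [mul_inv_cancel, e1] at this
    exact (neg_eq_of_add_eq_zero_right this.symm).symm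
  have hcs : Finite (commutatorSet H) := by
    have hK : Finite {g : H | χ g = 0} := by
      apply Set.Finite.to_subtype
      apply Set.Finite.of_finite_image (f := (Subtype.val : H → Γ)) _
        Subtype.val_injective.injOn
      refine hfin.subset ?_
      rintro _ ⟨g, hg, rfl⟩
      exact ⟨g.2, hg⟩
    refine Set.Finite.subset (Set.toFinite {g : H | χ g = 0}) ?_
    rintro _ ⟨g, h, rfl⟩
    change χ ((⁅g, h⁆ : H) : Γ) = 0
    rw [commutatorElement_def]
    have hg := g.2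
    have hh := h.2
    have hg' := H.inv_mem hg
    have hh' := H.inv_mem hh
    change χ ((g : Γ) * h * (g : Γ)⁻¹ * (h : Γ)⁻¹) = 0
    rw [hχ _ (H.mul_mem (H.mul_mem hg hh) hg') _ hh', hχ _ (H.mul_mem hg hh) _ hg',
      hχ _ hg _ hh, einv _ hg, einv _ hh]
    abel
  have hc : (Subgroup.center H).FiniteIndex := inferInstance
  refine ⟨(Subgroup.center H).map H.subtype, ?_, ?_⟩
  · constructor
    rw [Subgroup.index_map_subtype]
    exact mul_ne_zero hc.index_ne_zero (Subgroup.FiniteIndex.index_ne_zero)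
  · rintro _ ⟨a, ha, rfl⟩ _ ⟨b, hb, rfl⟩
    have h2 := Subgroup.mem_center_iff.1 hb a
    have h3 := congrArg (Subtype.val) h2
    simpa using h3

/-- The main theorem of the library of transitive graphs, for Cayley graphs. -/
theorem virtAb_of_curv (hsymm : ∀ s ∈ S, s⁻¹ ∈ S) (h1 : (1 : Γ) ∉ S)
    (hgen : Subgroup.closure (S : Set Γ) = ⊤) {α : ℝ≥0∞} (hα : α < 1) {P : Γ → PMF Γ}
    (hP : IsLazyWalk (cayley S) α P) (hκ : NonnegCurvature (cayley S) P) : VirtAb Γ := by
  classical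
  have hG := cayley_connected hsymm h1 hgen
  have hA := acts_cayley hsymm h1
  have hfg : Group.FG Γ := ⟨⟨S, hgen⟩⟩
  set k := (cayley S).degree 1 with hk
  have hreg : (cayley S).IsRegularOfDegree k := by
    intro x
    have h2 := degree_smul hA x 1
    rw [smul_eq_mul, mul_one] at h2
    rw [h2]
  have hpoly : PolyGrowth (cayley S) := by
    refine ⟨3 ^ (k * (2 * k + 1)) + (2 * k + 1), fun x r => ?_⟩
    obtain ⟨F, hF, hcard⟩ := regular_growth (cayley S) hreg hα hP hκ x r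
    have hsub : {y | (cayley S).dist x y ≤ r} ⊆ (F : Set Γ) :=
      fun y hy => hF y (hG.preconnected x y) hy
    refine ⟨F.finite_toSet.subset hsub, (Set.ncard_le_ncard hsub F.finite_toSet).trans ?_⟩
    rw [Set.ncard_coe_finset]
    refine hcard.trans ?_
    rw [← pow_mul]
    exact Nat.mul_le_mul (Nat.le_add_right _ _)
      (Nat.pow_le_pow_right (Nat.succ_pos r) (Nat.le_add_left _ _))
  obtain ⟨μ⟩ := exists_mean hG hA hpoly
  have hβ : (1 - α) ≠ 0 := (tsub_pos_of_lt hα).ne'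
  have hβt : (1 - α) ≠ ⊤ := ne_top_of_le_ne_top ENNReal.one_ne_top tsub_le_self
  have hβpos : 0 < (1 - α).toReal := ENNReal.toReal_pos hβ hβt
  obtain ⟨l, hl⟩ : ∃ l : ℕ, (k : ℝ) ≤ (k + l) * (1 - α).toReal := by
    obtain ⟨l, hl⟩ := exists_nat_ge ((k : ℝ) / (1 - α).toReal)
    rw [div_le_iff₀ hβpos] at hl
    refine ⟨l, hl.trans ?_⟩
    exact mul_le_mul_of_nonneg_right (by
      have : (0 : ℝ) ≤ k := Nat.cast_nonneg _
      linarith) hβpos.le
  have hF : Cofin Γ Γ := ⟨{1}, fun x => ⟨x⁻¹, by simp⟩⟩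
  obtain ⟨H, m, χ, R, z₀, hH, h2, -, h4⟩ := main_ind (k + l) Γ Γ Γ μ (fun x => x)
    (fun _ _ => rfl) (k + l) (spG hG hreg hα hP hκ hl) (spG_acts hA hG hreg hα hP hκ hl) hF
    (fun x => (Finset.card_le_univ _).trans (by rw [Fintype.card_fin]))
  refine virtAb_of_hom H χ h2 ?_
  refine (hpoly.choose_spec 1 R).1.subset ?_
  rintro g ⟨hg, hg0⟩
  have h5 := h4 g hg hg0 1
  rw [smul_eq_mul, mul_one] at h5
  exact h5

/-- The case of the simple random walk. -/
theorem virtAb_of_curv' (hsymm : ∀ s ∈ S, s⁻¹ ∈ S) (h1 : (1 : Γ) ∉ S)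
    (hgen : Subgroup.closure (S : Set Γ) = ⊤)
    (hκ : ∀ x y, (cayley S).Adj x y → 0 ≤ curvature (cayley S) x y) : VirtAb Γ :=
  virtAb_of_curv hsymm h1 hgen zero_lt_one (isLazyWalk_stepLaw (cayley S)) hκ

/-- The Heisenberg group is not virtually abelian. -/
theorem not_virtAb_heis : ¬ VirtAb Heis := by
  rintro ⟨A, hA, hab⟩
  obtain ⟨X, hX1, hX2, hX3⟩ := exists_heis 1 0 0
  obtain ⟨Y, hY1, hY2, hY3⟩ := exists_heis 0 1 0
  have hpow : ∀ (g : Heis) (n : ℕ), cx (g ^ n) = n * cx g ∧ cy (g ^ n) = n * cy g := by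
    intro g n
    induction n with
    | zero =>
      have e1 := cx_mul 1 1
      have e2 := cy_mul 1 1
      rw [mul_one] at e1 e2
      rw [pow_zero]
      push_cast
      constructor <;> linarith
    | succ n ih =>
      rw [pow_succ, cx_mul, cy_mul, ih.1, ih.2]
      push_cast
      constructor <;> ring
  obtain ⟨n, hn, -, hXn⟩ := A.exists_pow_mem_of_index_ne_zero hA.index_ne_zero X
  obtain ⟨m, hm, -, hYm⟩ := A.exists_pow_mem_of_index_ne_zero hA.index_ne_zero Y
  have h := hab _ hXn _ hYm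
  have h2 : ze (X ^ n * Y ^ m) = ze (Y ^ m * X ^ n) := by rw [h]
  rw [ze_mul, ze_mul, (hpow X n).1, (hpow X n).2, (hpow Y m).1, (hpow Y m).2, hX1, hX2, hY1,
    hY2] at h2
  have h3 : (0 : ℤ) < n := by exact_mod_cast hn
  have h4 : (0 : ℤ) < m := by exact_mod_cast hm
  nlinarith [mul_pos h3 h4]

end Pool.Agent.Y485.OR
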