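import Pool.Agent.Y485.OR.Ex
import Pool.Agent.Y485.OR.Only

set_option autoImplicit false

/-!
# Existence of the data for virtually abelian groups
-/

namespace Pool.Agent.Y485.OR

open Pool.Agent.H141R3.Ollivier

variable {Γ : Type} [Group Γ]

/-- Two elements in a coset. -/
theorem exists_pair {A : Subgroup Γ} [A.Normal] {a : Γ} (ha : a ∈ A) (ha1 : a ≠ 1) (q : Γ ⧸ A) :
    ∃ f : Fin 2 → Γ, Function.Injective f ∧ (∀ i, (QuotientGroup.mk (f i) : Γ ⧸ A) = q) ∧
      (q⁻¹ = q → ∀ i, ∃ j, (f i)⁻¹ = f j) := by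
  obtain ⟨t, rfl⟩ := QuotientGroup.mk_surjective q
  have hinj : ∀ x y : Γ, x ≠ y → Function.Injective ![x, y] := by
    intro x y hxy i j hij
    fin_cases i <;> fin_cases j <;> simp at hij ⊢
    · exact hxy hij
    · exact hxy hij.symm
  have hta : (QuotientGroup.mk (t * a) : Γ ⧸ A) = QuotientGroup.mk t := by
    rw [QuotientGroup.mk_mul, (QuotientGroup.eq_one_iff a).2 ha, mul_one]
  have htne : t ≠ t * a := fun h => ha1 (left_eq_mul.1 h)
  by_cases hq : (QuotientGroup.mk t : Γ ⧸ A)⁻¹ = QuotientGroup.mk t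
  · have hinvcase : ∀ x : Γ, (QuotientGroup.mk x : Γ ⧸ A) = QuotientGroup.mk t → x ≠ x⁻¹ →
        ∃ f : Fin 2 → Γ, Function.Injective f ∧
          (∀ i, (QuotientGroup.mk (f i) : Γ ⧸ A) = QuotientGroup.mk t) ∧
          ((QuotientGroup.mk t : Γ ⧸ A)⁻¹ = QuotientGroup.mk t → ∀ i, ∃ j, (f i)⁻¹ = f j) := by
      intro x hx hxne
      refine ⟨![x, x⁻¹], hinj _ _ hxne, ?_, fun _ => ?_⟩
      · intro i
        fin_cases i
        · exact hx
        · change (QuotientGroup.mk x⁻¹ : Γ ⧸ A) = _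
          rw [QuotientGroup.mk_inv, hx, hq]
      · intro i
        fin_cases i
        · exact ⟨1, rfl⟩
        · exact ⟨0, inv_inv x⟩
    by_cases h1 : t = t⁻¹
    · by_cases h2 : t * a = (t * a)⁻¹
      · refine ⟨![t, t * a], hinj _ _ htne, ?_, fun _ => ?_⟩
        · intro i
          fin_cases i
          · rfl
          · exact hta
        · intro i
          fin_cases i
          · exact ⟨0, h1.symm⟩
          · exact ⟨1, h2.symm⟩
      · exact hinvcase _ hta h2
    · exact hinvcase _ rfl h1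
  · refine ⟨![t, t * a], hinj _ _ htne, ?_, fun h => absurd h hq⟩
    intro i
    fin_cases i
    · rfl
    · exact hta

/-- Two elements in each coset, compatible with inversion. -/
theorem exists_tt {A : Subgroup Γ} [A.Normal] [Finite (Γ ⧸ A)] {a : Γ} (ha : a ∈ A)
    (ha1 : a ≠ 1) : ∃ tt : Γ ⧸ A → Fin 2 → Γ, (∀ q, Function.Injective (tt q)) ∧
      (∀ q i, (QuotientGroup.mk (tt q i) : Γ ⧸ A) = q) ∧
      ∀ q i, ∃ j, (tt q i)⁻¹ = tt q⁻¹ j := by
  classical
  choose f hf1 hf2 hf3 using exists_pair (A := A) ha ha1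
  obtain ⟨n, ⟨e⟩⟩ := Finite.exists_equiv_fin (Γ ⧸ A)
  refine ⟨fun q => if e q ≤ e q⁻¹ then f q else fun i => (f q⁻¹ i)⁻¹, ?_, ?_, ?_⟩
  · intro q
    beta_reduce
    split_ifs with h
    · exact hf1 q
    · exact fun i j hij => hf1 q⁻¹ (inv_injective hij)
  · intro q i
    beta_reduce
    split_ifs with h
    · exact hf2 q i
    · rw [QuotientGroup.mk_inv, hf2, inv_inv]
  · intro q i
    beta_reduce
    rcases lt_trichotomy (e q) (e q⁻¹) with h | h | h
    · rw [if_pos h.le, if_neg (by rw [inv_inv]; exact not_le.2 h)]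
      exact ⟨i, by rw [inv_inv]⟩
    · have hq : q⁻¹ = q := (e.injective h).symm
      rw [if_pos h.le]
      obtain ⟨j, hj⟩ := hf3 q hq i
      refine ⟨j, ?_⟩
      rw [if_pos (by rw [inv_inv]; exact h.symm.le), hj, hq]
    · rw [if_neg (not_le.2 h), if_pos (by rw [inv_inv]; exact h.le)]
      exact ⟨i, by rw [inv_inv]⟩

/-- The set of conjugates of the elements of a finite subset of an abelian normal subgroup of
finite index and of their inverses is finite. -/
theorem conj_finite {A : Subgroup Γ} [A.Normal] [Finite (Γ ⧸ A)]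
    (hab : ∀ a ∈ A, ∀ b ∈ A, a * b = b * a) {F : Set Γ} (hF : F.Finite) (hFA : F ⊆ A) :
    {x | ∃ b ∈ F, ∃ g : Γ, x = g * b * g⁻¹ ∨ x = g * b⁻¹ * g⁻¹}.Finite := by
  classical
  have h1 : (⋃ q : Γ ⧸ A, (fun b => q.out * b * q.out⁻¹) '' F).Finite :=
    Set.finite_iUnion fun q => hF.image _
  have h2 : (⋃ q : Γ ⧸ A, (fun b => q.out * b⁻¹ * q.out⁻¹) '' F).Finite :=
    Set.finite_iUnion fun q => hF.image _
  refine (h1.union h2).subset ?_
  rintro x ⟨b, hb, g, hx⟩
  have key : ∀ c ∈ A, g * c * g⁻¹ = (QuotientGroup.mk g : Γ ⧸ A).out * c *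
      (QuotientGroup.mk g : Γ ⧸ A).out⁻¹ := by
    intro c hc
    set o := (QuotientGroup.mk g : Γ ⧸ A).out with ho
    have h3 : o⁻¹ * g ∈ A := by
      rw [← QuotientGroup.eq, ho, QuotientGroup.out_eq']
    have h4 := hab _ h3 _ hc
    have h5 : g = o * (o⁻¹ * g) := by rw [mul_inv_cancel_left]
    calc g * c * g⁻¹ = o * ((o⁻¹ * g) * c) * (o⁻¹ * g)⁻¹ * o⁻¹ := by group
      _ = o * (c * (o⁻¹ * g)) * (o⁻¹ * g)⁻¹ * o⁻¹ := by rw [h4]
      _ = o * c * o⁻¹ := by group
  rcases hx with hx | hx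
  · left
    rw [Set.mem_iUnion]
    exact ⟨QuotientGroup.mk g, b, hb, by rw [hx, key b (hFA hb)]⟩
  · right
    rw [Set.mem_iUnion]
    exact ⟨QuotientGroup.mk g, b, hb, by rw [hx, key b⁻¹ (A.inv_mem (hFA hb))]⟩

/-- The data exist, and the generating set can be chosen to generate. -/
theorem exists_dat [Group.FG Γ] (A : Subgroup Γ) [hn : A.Normal] [hfi : A.FiniteIndex]
    (hab : ∀ a ∈ A, ∀ b ∈ A, a * b = b * a) {a₀ : Γ} (ha : a₀ ∈ A) (ha1 : a₀ ≠ 1) :
    ∃ D : Dat Γ, Subgroup.closure (D.S : Set Γ) = ⊤ := by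
  classical
  have hQ : Finite (Γ ⧸ A) := Subgroup.finite_quotient_of_finiteIndex
  obtain ⟨tt, htt1, htt2, htt3⟩ := exists_tt (A := A) ha ha1
  set Ts : Set Γ := {t | t ∉ A ∧ ∃ i, t = tt (QuotientGroup.mk t) i} with hTs
  have hTfin : Ts.Finite := by
    have h1 : (Set.range fun p : (Γ ⧸ A) × Fin 2 => tt p.1 p.2).Finite := Set.finite_range _
    refine h1.subset ?_
    rintro t ⟨-, i, hi⟩
    exact ⟨(QuotientGroup.mk t, i), hi.symm⟩
  have hTinv : ∀ t ∈ Ts, t⁻¹ ∈ Ts := by
    rintro t ⟨h1, i, hi⟩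
    refine ⟨fun h => h1 ((A.inv_mem_iff).1 h), ?_⟩
    obtain ⟨j, hj⟩ := htt3 (QuotientGroup.mk t) i
    refine ⟨j, ?_⟩
    rw [QuotientGroup.mk_inv, ← hj, ← hi]
  -- generators of `A`
  have hAfg : A.FG := (Group.fg_iff_subgroup_fg A).1 inferInstance
  obtain ⟨FA, hFA⟩ := hAfg
  set W : Set Γ := (FA : Set Γ) ∪
    ((fun p : Γ × Γ × Γ => p.1 * p.2.1 * p.2.2) '' (Ts ×ˢ Ts ×ˢ Ts) ∪
    ((fun p : Γ × Γ => p.1 * p.2) '' (Ts ×ˢ Ts) ∪
    (fun p : Γ × Γ => p.1 * p.2 * (p.1 * p.2)) '' (Ts ×ˢ Ts))) with hW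
  have hWfin : W.Finite := by
    refine (Finset.finite_toSet FA).union (Set.Finite.union ?_ (Set.Finite.union ?_ ?_))
    · exact (hTfin.prod (hTfin.prod hTfin)).image _
    · exact (hTfin.prod hTfin).image _
    · exact (hTfin.prod hTfin).image _
  set F : Set Γ := W ∩ A with hF
  have hFfin : F.Finite := hWfin.inter_of_left _
  have hFA' : F ⊆ A := Set.inter_subset_right
  have hBfin := conj_finite (A := A) hab hFfin hFA'
  set Bs : Set Γ := {x | ∃ b ∈ F, ∃ g : Γ, x = g * b * g⁻¹ ∨ x = g * b⁻¹ * g⁻¹} \ {1} with hBs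
  have hBsfin : Bs.Finite := hBfin.sdiff
  have hWB : ∀ w ∈ W, w ∈ A → w ∈ Bs ∨ w = 1 := by
    intro w hw hwA
    by_cases h : w = 1
    · exact Or.inr h
    · exact Or.inl ⟨⟨w, ⟨hw, hwA⟩, 1, Or.inl (by group)⟩, h⟩
  have hBA : ∀ b ∈ Bs, b ∈ A := by
    rintro b ⟨⟨c, hc, g, hb⟩, -⟩
    rcases hb with rfl | rfl
    · exact hn.conj_mem c (hFA' hc) g
    · exact hn.conj_mem _ (A.inv_mem (hFA' hc)) g
  let D : Dat Γ :=
    { A := A
      norm := hn
      B := hBsfin.toFinset
      B_mem := fun b hb => hBA b ((Set.Finite.mem_toFinset _).1 hb)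
      B_one := by
        rw [Set.Finite.mem_toFinset]
        rintro ⟨-, h⟩
        exact h rfl
      B_inv := by
        intro b hb
        rw [Set.Finite.mem_toFinset] at hb ⊢
        obtain ⟨⟨c, hc, g, hb⟩, h1⟩ := hb
        refine ⟨⟨c, hc, g, ?_⟩, ?_⟩
        · rcases hb with rfl | rfl
          · right; group
          · left; group
        · intro h
          exact h1 (inv_eq_one.1 h)
      B_conj := by
        intro g b hb
        rw [Set.Finite.mem_toFinset] at hb ⊢
        obtain ⟨⟨c, hc, g', hb⟩, h1⟩ := hb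
        refine ⟨⟨c, hc, g * g', ?_⟩, ?_⟩
        · rcases hb with rfl | rfl
          · left; group
          · right; group
        · intro h
          apply h1
          have h' : g * b * g⁻¹ = 1 := h
          have : b = g⁻¹ * (g * b * g⁻¹) * g := by group
          rw [h'] at this
          change b = 1
          rw [this]; group
      T := hTfin.toFinset
      T_mem := fun t ht => ((Set.Finite.mem_toFinset _).1 ht).1
      T_inv := by
        intro t ht
        rw [Set.Finite.mem_toFinset] at ht ⊢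
        exact hTinv t ht
      tt := tt
      tt_mk := htt2
      tt_inj := htt1
      T_iff := by
        intro t
        rw [Set.Finite.mem_toFinset]
        rfl
      three := by
        intro t₁ h1 t₂ h2 t₃ h3 h
        rw [Set.Finite.mem_toFinset] at h1 h2 h3 ⊢
        exact hWB _ (Or.inr (Or.inl ⟨(t₁, t₂, t₃), ⟨h1, h2, h3⟩, rfl⟩)) h
      two := by
        intro t₁ h1 t₂ h2 h
        rw [Set.Finite.mem_toFinset] at h1 h2 ⊢
        exact hWB _ (Or.inr (Or.inr (Or.inl ⟨(t₁, t₂), ⟨h1, h2⟩, rfl⟩))) h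
      four := by
        intro t₁ h1 t₂ h2 h
        rw [Set.Finite.mem_toFinset] at h1 h2 ⊢
        exact hWB _ (Or.inr (Or.inr (Or.inr ⟨(t₁, t₂), ⟨h1, h2⟩, rfl⟩))) (A.mul_mem h h) }
  refine ⟨D, ?_⟩
  rw [eq_top_iff]
  have hAle : A ≤ Subgroup.closure (D.S : Set Γ) := by
    rw [← hFA, Subgroup.closure_le]
    intro w hw
    have hwA : w ∈ A := by
      rw [← hFA]
      exact Subgroup.subset_closure hw
    rcases hWB w (Or.inl hw) hwA with h | h
    · apply Subgroup.subset_closure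
      rw [Finset.mem_coe, D.mem_S]
      exact Or.inl ((Set.Finite.mem_toFinset _).2 h)
    · rw [h]
      exact Subgroup.one_mem _
  intro g _
  by_cases hg : g ∈ A
  · exact hAle hg
  · set t := tt (QuotientGroup.mk g) 0 with ht
    have hmk : (QuotientGroup.mk t : Γ ⧸ A) = QuotientGroup.mk g := htt2 _ _
    have htA : t ∉ A := by
      rw [← QuotientGroup.eq_one_iff, hmk, QuotientGroup.eq_one_iff]
      exact hg
    have htT : t ∈ D.T := by
      change t ∈ hTfin.toFinset
      rw [Set.Finite.mem_toFinset]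
      exact ⟨htA, 0, by rw [hmk]⟩
    have h1 : t ∈ Subgroup.closure (D.S : Set Γ) := by
      apply Subgroup.subset_closure
      rw [Finset.mem_coe, D.mem_S]
      exact Or.inr htT
    have h2 : t⁻¹ * g ∈ A := QuotientGroup.eq.1 hmk
    have h3 : g = t * (t⁻¹ * g) := by rw [mul_inv_cancel_left]
    rw [h3]
    exact Subgroup.mul_mem _ h1 (hAle h2)

/-- Every finitely generated virtually abelian group has a Cayley graph of nonnegative curvature. -/
theorem exists_cayley [hfg : Group.FG Γ] (h : VirtAb Γ) : ∃ S : Finset Γ, (∀ s ∈ S, s⁻¹ ∈ S) ∧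
    (1 : Γ) ∉ S ∧ Subgroup.closure (S : Set Γ) = ⊤ ∧
    ∀ x y, (cayley S).Adj x y → 0 ≤ curvature (cayley S) x y := by
  classical
  obtain ⟨A₀, hA₀, hab₀⟩ := h
  set A := A₀.normalCore with hA
  have hle : A ≤ A₀ := A₀.normalCore_le
  have hab : ∀ a ∈ A, ∀ b ∈ A, a * b = b * a := fun a ha b hb => hab₀ a (hle ha) b (hle hb)
  have hfi : A.FiniteIndex := inferInstance
  have hQ : Finite (Γ ⧸ A) := Subgroup.finite_quotient_of_finiteIndex
  by_cases htriv : ∃ a ∈ A, a ≠ 1
  · obtain ⟨a, ha, ha1⟩ := htriv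
    obtain ⟨D, hD⟩ := exists_dat A hab ha ha1
    exact ⟨D.S, D.S_inv, D.S_one, hD, D.nonneg⟩
  · push Not at htriv
    have hfin : Finite Γ := by
      refine Finite.of_injective (QuotientGroup.mk : Γ → Γ ⧸ A) ?_
      intro x y hxy
      exact inv_mul_eq_one.1 (htriv _ (QuotientGroup.eq.1 hxy))
    have hft : Fintype Γ := Fintype.ofFinite Γ
    refine ⟨Finset.univ.erase 1, ?_, ?_, ?_, ?_⟩
    · intro s hs
      rw [Finset.mem_erase] at hs ⊢
      exact ⟨fun h => hs.1 (inv_eq_one.1 h), Finset.mem_univ _⟩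
    · exact Finset.notMem_erase _ _
    · rw [eq_top_iff]
      intro g _
      by_cases hg : g = 1
      · rw [hg]
        exact Subgroup.one_mem _
      · apply Subgroup.subset_closure
        rw [Finset.mem_coe, Finset.mem_erase]
        exact ⟨hg, Finset.mem_univ _⟩
    · apply nonneg_of_bij
      · intro s hs
        rw [Finset.mem_erase] at hs ⊢
        exact ⟨fun h => hs.1 (inv_eq_one.1 h), Finset.mem_univ _⟩
      · exact Finset.notMem_erase _ _
      · intro s _
        refine ⟨id, Set.bijOn_id _, fun a _ => ?_⟩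
        by_cases h : a⁻¹ * s * id a = 1
        · exact Or.inr h
        · left
          rw [Finset.mem_erase]
          exact ⟨h, Finset.mem_univ _⟩

end Pool.Agent.Y485.OR
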