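import Pool.Agent.H141R3.Heis

set_option autoImplicit false

/-!
# Cayley graphs of nonnegative curvature from bijections of the generating set
-/

namespace Pool.Agent.Y485.OR

open Pool.Agent.H141R3.Ollivier
open scoped ENNReal

variable {Γ : Type} [Group Γ] {S : Finset Γ}

/-- The image of a uniform law under a map which is injective on its support. -/
theorem map_uniform {V W : Type} [DecidableEq W] {S : Finset V} (hS : S.Nonempty) {T : Finset W}
    (hT : T.Nonempty) (f : V → W) (hinj : Set.InjOn f S) (himg : S.image f = T) :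
    (PMF.uniformOfFinset S hS).map f = PMF.uniformOfFinset T hT := by
  classical
  have hcard : T.card = S.card := by rw [← himg, Finset.card_image_of_injOn hinj]
  ext w
  rw [PMF.map_apply, PMF.uniformOfFinset_apply]
  split_ifs with hw
  · rw [← himg, Finset.mem_image] at hw
    obtain ⟨v, hv, rfl⟩ := hw
    rw [tsum_eq_single v]
    · rw [if_pos rfl, PMF.uniformOfFinset_apply, if_pos hv, hcard]
    · intro v' hv'
      split_ifs with h
      · rw [PMF.uniformOfFinset_apply, if_neg]
        intro h2
        exact hv' (hinj h2 hv h.symm)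
      · rfl
  · rw [ENNReal.tsum_eq_zero]
    intro v
    split_ifs with h
    · rw [PMF.uniformOfFinset_apply, if_neg]
      intro h2
      apply hw
      rw [← himg, h]
      exact Finset.mem_image_of_mem _ h2
    · rfl

/-- A bijection of the generating set which moves the neighbours of `x` to those of `x s` along
edges shows that the curvature is nonnegative. -/
theorem curv_nonneg_of_bij (hsymm : ∀ s ∈ S, s⁻¹ ∈ S) (h1 : (1 : Γ) ∉ S) {x s : Γ} (hs : s ∈ S)
    (σ : Γ → Γ) (hσ : Set.BijOn σ S S) (hcost : ∀ a ∈ S, a⁻¹ * s * σ a ∈ S ∨ a⁻¹ * s * σ a = 1) :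
    0 ≤ curvature (cayley S) x (x * s) := by
  classical
  have hS : S.Nonempty := ⟨s, hs⟩
  have hnbr : ∀ g : Γ, (cayley S).neighborFinset g = S.image (fun t => g * t) := by
    intro g
    ext a
    rw [SimpleGraph.mem_neighborFinset, cayley_adj hsymm h1, Finset.mem_image]
    constructor
    · intro h
      exact ⟨_, h, by simp⟩
    · rintro ⟨t, ht, rfl⟩
      simpa using ht
  have hne : ∀ g : Γ, ((cayley S).neighborFinset g).Nonempty := by
    intro g
    rw [hnbr]
    exact hS.image _
  have hstep : ∀ g : Γ, stepLaw (cayley S) g =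
      PMF.uniformOfFinset ((cayley S).neighborFinset g) (hne g) := by
    intro g
    rw [stepLaw, dif_pos (hne g)]
  set μ : PMF Γ := PMF.uniformOfFinset S hS with hμ
  set F : Γ → Γ × Γ := fun a => (x * a, x * s * σ a) with hF
  set π : PMF (Γ × Γ) := μ.map F with hπ
  have hc : IsCoupling (stepLaw (cayley S) x) (stepLaw (cayley S) (x * s)) π := by
    constructor
    · rw [hπ, PMF.map_comp, hstep]
      exact map_uniform hS (hne x) _ (fun a _ b _ h => mul_left_cancel h) (hnbr x).symm
    · rw [hπ, PMF.map_comp, hstep]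
      refine map_uniform hS (hne (x * s)) _ ?_ ?_
      · intro a ha b hb h
        exact hσ.injOn ha hb (mul_left_cancel h)
      · rw [hnbr]
        ext g
        simp only [Finset.mem_image, Function.comp, hF]
        constructor
        · rintro ⟨a, ha, rfl⟩
          exact ⟨σ a, hσ.mapsTo ha, rfl⟩
        · rintro ⟨b, hb, rfl⟩
          obtain ⟨a, ha, rfl⟩ := hσ.surjOn hb
          exact ⟨a, ha, rfl⟩
  have hd : ∀ a ∈ S, (cayley S).dist (x * a) (x * s * σ a) ≤ 1 := by
    intro a ha
    have e : (x * a)⁻¹ * (x * s * σ a) = a⁻¹ * s * σ a := by group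
    rcases hcost a ha with h | h
    · rw [← e] at h
      exact (SimpleGraph.dist_eq_one_iff_adj.2 ((cayley_adj hsymm h1).2 h)).le
    · rw [← e] at h
      have h2 : x * a = x * s * σ a := inv_mul_eq_one.1 h
      rw [← h2, SimpleGraph.dist_self]
      exact Nat.zero_le _
  have hW : W1 (cayley S) (stepLaw (cayley S) x) (stepLaw (cayley S) (x * s)) ≤ 1 := by
    refine (iInf₂_le π hc).trans ?_
    have h2 : ∀ p : Γ × Γ, π p * ((cayley S).dist p.1 p.2 : ℝ≥0∞) ≤ π p := by
      intro p
      by_cases hp : π p = 0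
      · rw [hp, zero_mul]
      · have h3 : ∃ a ∈ S, F a = p := by
          have hp' : p ∈ π.support := (PMF.mem_support_iff _ _).2 hp
          rw [hπ, PMF.support_map] at hp'
          obtain ⟨a, ha, hap⟩ := hp'
          rw [hμ, PMF.support_uniformOfFinset] at ha
          exact ⟨a, ha, hap⟩
        obtain ⟨a, ha, rfl⟩ := h3
        calc π (F a) * ((cayley S).dist (F a).1 (F a).2 : ℝ≥0∞) ≤ π (F a) * 1 := by
              gcongr
              exact_mod_cast hd a ha
          _ = π (F a) := mul_one _
    calc ∑' p : Γ × Γ, π p * ((cayley S).dist p.1 p.2 : ℝ≥0∞) ≤ ∑' p : Γ × Γ, π p :=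
          ENNReal.tsum_le_tsum h2
      _ = 1 := π.tsum_coe
  have hadj : (cayley S).Adj x (x * s) := by
    rw [cayley_adj hsymm h1]
    simpa using hs
  rw [curvature, SimpleGraph.dist_eq_one_iff_adj.2 hadj, Nat.cast_one, div_one, sub_nonneg]
  have := ENNReal.toReal_mono ENNReal.one_ne_top hW
  simpa using this

/-- The criterion for a Cayley graph to have nonnegative curvature. -/
theorem nonneg_of_bij (hsymm : ∀ s ∈ S, s⁻¹ ∈ S) (h1 : (1 : Γ) ∉ S)
    (h : ∀ s ∈ S, ∃ σ : Γ → Γ, Set.BijOn σ S S ∧
      ∀ a ∈ S, a⁻¹ * s * σ a ∈ S ∨ a⁻¹ * s * σ a = 1) (x y : Γ) (hxy : (cayley S).Adj x y) :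
    0 ≤ curvature (cayley S) x y := by
  rw [cayley_adj hsymm h1] at hxy
  obtain ⟨σ, h2, h3⟩ := h _ hxy
  have := curv_nonneg_of_bij hsymm h1 hxy (x := x) σ h2 h3
  rwa [mul_inv_cancel_left] at this

end Pool.Agent.Y485.OR
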